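import Pool.Agent.Helper32.OIP.Goals

set_option autoImplicit false

namespace Pool.Agent.Helper34.OIP

open MeasureTheory Pool.Agent.Helper32.OIP Pool.Agent.Helper58.Orb

theorem e7 : GoalE7 := by
  classical
  intro hE6 h5 A E M _ _ _ _ S D _ T ν _ X W hX hW
  obtain ⟨p0, pE, pW, pS, pM⟩ := h5 A E M ν X W hX hW
  set f : A → ℝ := FX (pm A ν) X with hf
  set V : Finset A := W ∪ Finset.univ.biUnion (fun s : D => W.image (fun a => (T.dir s)⁻¹ * a))
    with hV
  have hmem : ∀ j ∉ V, ∀ s, T.dir s * j ∉ W := by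
    intro j hj s hs
    apply hj
    rw [hV, Finset.mem_union]
    right
    rw [Finset.mem_biUnion]
    refine ⟨s, Finset.mem_univ s, ?_⟩
    rw [Finset.mem_image]
    exact ⟨_, hs, by group⟩
  have hWV : W ⊆ V := Finset.subset_union_left
  have key := hE6 A S D T f V p0 (fun j hj => pW j (fun h => hj (hWV h)))
    (fun j hj s => pW _ (hmem j hj s))
  have hsum : ∑ j ∈ V, f j = Ent (pm A ν) X := by
    rw [← pE]
    symm
    exact Finset.sum_subset hWV (fun j _ hj => pW j hj)
  rw [hsum] at key
  refine key.trans (Finset.sum_le_sum fun s _ => ?_)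
  set g : A := T.dir s with hg
  set Ws : Finset A := W ∪ W.image (fun a => g⁻¹ * a) with hWs
  have hsh : Measurable (sh g : (A → E) → (A → E)) := by
    apply measurable_pi_lambda
    intro h
    exact measurable_pi_apply (g⁻¹ * h)
  have hmeas : ∀ m : M × M, MeasurableSet {z : A → E | (X z, X (sh g z)) = m} := by
    rintro ⟨m, m'⟩
    have : {z : A → E | (X z, X (sh g z)) = (m, m')} = {z | X z = m} ∩ sh g ⁻¹' {z | X z = m'} := by
      ext z
      simp [Prod.ext_iff]
    rw [this]
    exact (hX m).inter (hsh (hX m'))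
  have hdep : DependsOn (fun z : A → E => (X z, X (sh g z))) (Ws : Set A) := by
    intro x y hxy
    have h1 : X x = X y := hW (fun i hi => hxy i (by
      rw [hWs, Finset.coe_union]
      exact Or.inl hi))
    have h2 : X (sh g x) = X (sh g y) := hW (fun i hi => hxy (g⁻¹ * i) (by
      rw [hWs, Finset.mem_coe, Finset.mem_union]
      right
      rw [Finset.mem_image]
      exact ⟨i, hi, rfl⟩))
    exact Prod.ext h1 h2
  obtain ⟨q0, qE, qW, _, qM⟩ := h5 A E (M × M) ν (fun z => (X z, X (sh g z))) Ws hmeas hdep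
  have hWsV : Ws ⊆ V := by
    intro j hj
    rw [hWs, Finset.mem_union] at hj
    rcases hj with hj | hj
    · exact hWV hj
    · rw [hV, Finset.mem_union]
      right
      rw [Finset.mem_biUnion]
      exact ⟨s, Finset.mem_univ s, hj⟩
  rw [← qE]
  have hext : ∑ j ∈ Ws, FX (pm A ν) (fun z => (X z, X (sh g z))) j =
      ∑ j ∈ V, FX (pm A ν) (fun z => (X z, X (sh g z))) j :=
    Finset.sum_subset hWsV (fun j _ hj => qW j hj)
  rw [hext]
  apply Finset.sum_le_sum
  intro j _
  have a1 := qM M Prod.fst j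
  have a2 := qM M Prod.snd j
  have a3 := pS g j
  beta_reduce at a1 a2
  rw [a3] at a2
  exact max_le a1 a2

end Pool.Agent.Helper34.OIP
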